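import Mathlib
import Pool.Agent.X72.Multithreshold

/-! The threshold number is unbounded on the graphs whose complement has threshold dimension 2. -/

namespace Pool.Agent.Results.MP_9c4245_co.UnboundedComplement

open Pool.Agent.X72.Multithreshold

/-- For every `C` there is a finite graph `G` whose complement has threshold dimension `2` and
whose threshold number is larger than `C`. -/
theorem result (C : ℕ) : ∃ (V : Type) (_ : Finite V) (G : SimpleGraph V),
    thresholdDim Gᶜ = 2 ∧ (C : ℕ∞) < Theta G := by
  refine ⟨Vert (2 * C + 2), inferInstance, (Gd (2 * C + 2))ᶜ, ?_, ?_⟩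
  · rw [compl_compl]
    exact dim_eq_two _ (by omega)
  · apply lt_theta
    intro k hk
    apply not_kThreshold_compl
    have : k * (2 * (2 * C + 2)) ≤ C * (2 * (2 * C + 2)) := Nat.mul_le_mul_right _ hk
    nlinarith

end Pool.Agent.Results.MP_9c4245_co.UnboundedComplement
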